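import Mathlib

/-!
# A checker for search trees on the triples of eight points

The triple `a, b, c` of numbers less than `8` is the number `a + 8 b + 64 c`. A state consists of two sets of
triples, coded as natural numbers by their bits: triples which are known to be blocks, and triples which are known
not to be blocks.
-/

set_option autoImplicit false

namespace Pool.Agent.Run7.h645.KH

/-- the set which contains only the triple `a, b, c` -/
def bit (a b c : ℕ) : ℕ := 2 ^ (a + 8 * b + 64 * c)

/-- The alternatives given by the five points `a, b, c, d, e`: for `t = true`, one of the ten triples is a block;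
otherwise there is a point such that the four triples which do not contain it are not blocks. -/
def alts (t : Bool) (a b c d e : ℕ) : List (ℕ × ℕ) :=
  match t with
  | true => [(bit a b c, 0), (bit a b d, 0), (bit a b e, 0), (bit a c d, 0), (bit a c e, 0),
      (bit a d e, 0), (bit b c d, 0), (bit b c e, 0), (bit b d e, 0), (bit c d e, 0)]
  | false => [(0, bit b c d ||| bit b c e ||| bit b d e ||| bit c d e),
      (0, bit a c d ||| bit a c e ||| bit a d e ||| bit c d e),
      (0, bit a b d ||| bit a b e ||| bit a d e ||| bit b d e),
      (0, bit a b c ||| bit a b e ||| bit a c e ||| bit b c e),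
      (0, bit a b c ||| bit a b d ||| bit a c d ||| bit b c d)]

/-- `a < b < c < d < e < 8` -/
def incr (a b c d e : ℕ) : Bool :=
  Nat.blt a b && Nat.blt b c && Nat.blt c d && Nat.blt d e && Nat.blt e 8

/-- the alternatives with code `j` -/
def kids (j : ℕ) : List (ℕ × ℕ) :=
  alts (Nat.blt j 32768) (j % 8) (j / 8 % 8) (j / 64 % 8) (j / 512 % 8) (j / 4096 % 8)

/-- the digits of `j` increase -/
def ok (j : ℕ) : Bool := incr (j % 8) (j / 8 % 8) (j / 64 % 8) (j / 512 % 8) (j / 4096 % 8)

/-- `f n`, with `n` evaluated first -/
def force {α : Type} (n : ℕ) (f : ℕ → α) : α :=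
  match n with
  | 0 => f 0
  | k + 1 => f (k + 1)

theorem force_eq {α : Type} (n : ℕ) (f : ℕ → α) : force n f = f n := by
  cases n <;> rfl

/-- Checks the search tree `js` in the state `P, N`, and returns the rest of the list. -/
def run : ℕ → List ℕ → ℕ → ℕ → Option (List ℕ)
  | 0, _, _, _ => none
  | _ + 1, [], _, _ => none
  | f + 1, j :: js, P, N =>
    match ok j with
    | false => none
    | true =>
      (kids j).foldl (fun acc am => acc.bind fun js' =>
        match Nat.beq (am.1 &&& N) 0 && Nat.beq (am.2 &&& P) 0 with
        | true => force (P ||| am.1) fun P' => force (N ||| am.2) fun N' => run f js' P' N'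
        | false => some js') (some js)

theorem foldl_none {α β : Type} (step : α → β → Option α) (l : List β) :
    l.foldl (fun acc b => acc.bind fun a => step a b) none = none := by
  induction l with
  | nil => rfl
  | cons b t ih => exact ih

theorem foldl_some {α β : Type} (step : α → β → Option α) (l : List β) (a0 r : α)
    (h : l.foldl (fun acc b => acc.bind fun a => step a b) (some a0) = some r) :
    ∀ b ∈ l, ∃ a a', step a b = some a' := by
  induction l generalizing a0 with
  | nil => intro b hb; simp at hb
  | cons b t ih =>
    rw [List.foldl_cons, Option.bind_some] at h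
    cases hs : step a0 b with
    | none =>
      rw [hs, foldl_none] at h
      exact absurd h (by simp)
    | some a1 =>
      rw [hs] at h
      intro b' hb'
      rcases List.mem_cons.mp hb' with rfl | hb'
      · exact ⟨a0, a1, hs⟩
      · exact ih a1 h b' hb'

/-- `q` contains the positive triples and none of the negative triples. -/
def Fits (q : ℕ → Prop) (P N : ℕ) : Prop :=
  (∀ i, P.testBit i = true → q i) ∧ ∀ i, N.testBit i = true → ¬ q i

theorem Fits.disj {q : ℕ → Prop} {P N : ℕ} (h : Fits q P N) : P &&& N = 0 := by
  apply Nat.eq_of_testBit_eq
  intro i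
  rw [Nat.testBit_and, Nat.zero_testBit]
  by_contra hc
  rw [Bool.not_eq_false, Bool.and_eq_true] at hc
  exact h.2 i hc.2 (h.1 i hc.1)

theorem Fits.or {q : ℕ → Prop} {P N a m : ℕ} (h : Fits q P N) (h' : Fits q a m) :
    Fits q (P ||| a) (N ||| m) := by
  constructor
  · intro i hi
    rw [Nat.testBit_or, Bool.or_eq_true] at hi
    exact hi.elim (h.1 i) (h'.1 i)
  · intro i hi
    rw [Nat.testBit_or, Bool.or_eq_true] at hi
    exact hi.elim (h.2 i) (h'.2 i)

theorem run_sound (q : ℕ → Prop) (hq : ∀ j, ok j = true → ∃ am ∈ kids j, Fits q am.1 am.2) :
    ∀ f js P N r, Fits q P N → run f js P N = some r → False := by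
  intro f
  induction f with
  | zero => intro js P N r _ h; simp [run] at h
  | succ f ih =>
    intro js P N r hfit h
    cases js with
    | nil => simp [run] at h
    | cons j js =>
      rw [run] at h
      cases hok : ok j with
      | false => rw [hok] at h; simp at h
      | true =>
        rw [hok] at h
        simp only at h
        obtain ⟨am, ham, hf⟩ := hq j hok
        obtain ⟨a, a', hs⟩ := foldl_some (fun js' am =>
          match Nat.beq (am.1 &&& N) 0 && Nat.beq (am.2 &&& P) 0 with
          | true => force (P ||| am.1) fun P' => force (N ||| am.2) fun N' => run f js' P' N'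
          | false => some js') _ _ _ h am ham
        have h1 : (Nat.beq (am.1 &&& N) 0 && Nat.beq (am.2 &&& P) 0) = true := by
          have e1 : am.1 &&& N = 0 := Fits.disj ⟨hf.1, hfit.2⟩
          have e2 : am.2 &&& P = 0 := by
            rw [Nat.and_comm]
            exact Fits.disj ⟨hfit.1, hf.2⟩
          rw [e1, e2]
          rfl
        rw [h1] at hs
        simp only [force_eq] at hs
        exact ih _ _ _ _ (hfit.or hf) hs

end Pool.Agent.Run7.h645.KH
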