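import Pool.Agent.Run7.h645.KH.Tree

/-!
# Triples such that every five points contain a block and four points without a block

There is no such family of triples on ten points.
-/

set_option autoImplicit false

namespace Pool.Agent.Run7.h645.KH

universe u

variable {Ω : Type u}

/-- Among any five points there is a block, and there are four points without a block. -/
def Five (T : Ω → Ω → Ω → Prop) : Prop :=
  ∀ a b c d e, [a, b, c, d, e].Nodup →
    (T a b c ∨ T a b d ∨ T a b e ∨ T a c d ∨ T a c e ∨ T a d e ∨ T b c d ∨ T b c e ∨ T b d e ∨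
      T c d e) ∧
    ((¬ T b c d ∧ ¬ T b c e ∧ ¬ T b d e ∧ ¬ T c d e) ∨
      (¬ T a c d ∧ ¬ T a c e ∧ ¬ T a d e ∧ ¬ T c d e) ∨
      (¬ T a b d ∧ ¬ T a b e ∧ ¬ T a d e ∧ ¬ T b d e) ∨
      (¬ T a b c ∧ ¬ T a b e ∧ ¬ T a c e ∧ ¬ T b c e) ∨
      (¬ T a b c ∧ ¬ T a b d ∧ ¬ T a c d ∧ ¬ T b c d))

/-- the triple with code `i` is a block -/
def Qp (T : Ω → Ω → Ω → Prop) (p : ℕ → Ω) (i : ℕ) : Prop := T (p (i % 8)) (p (i / 8 % 8)) (p (i / 64))

theorem Qp_code (T : Ω → Ω → Ω → Prop) (p : ℕ → Ω) {a b c : ℕ} (ha : a < 8) (hb : b < 8) :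
    Qp T p (a + 8 * b + 64 * c) ↔ T (p a) (p b) (p c) := by
  have h1 : (a + 8 * b + 64 * c) % 8 = a := by omega
  have h2 : (a + 8 * b + 64 * c) / 8 % 8 = b := by omega
  have h3 : (a + 8 * b + 64 * c) / 64 = c := by omega
  rw [Qp, h1, h2, h3]

theorem fits_pos {T : Ω → Ω → Ω → Prop} {p : ℕ → Ω} {a b c : ℕ} (ha : a < 8) (hb : b < 8)
    (h : T (p a) (p b) (p c)) : Fits (Qp T p) (bit a b c) 0 := by
  constructor
  · intro i hi
    rw [bit, Nat.testBit_two_pow, decide_eq_true_eq] at hi
    rw [← hi]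
    exact (Qp_code T p ha hb).mpr h
  · intro i hi
    rw [Nat.zero_testBit] at hi
    exact absurd hi (by decide)

theorem fits_neg {T : Ω → Ω → Ω → Prop} {p : ℕ → Ω} {a b c : ℕ} (ha : a < 8) (hb : b < 8)
    (h : ¬ T (p a) (p b) (p c)) : Fits (Qp T p) 0 (bit a b c) := by
  constructor
  · intro i hi
    rw [Nat.zero_testBit] at hi
    exact absurd hi (by decide)
  · intro i hi
    rw [bit, Nat.testBit_two_pow, decide_eq_true_eq] at hi
    rw [← hi]
    exact fun hc => h ((Qp_code T p ha hb).mp hc)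

theorem fits_or0 {q : ℕ → Prop} {m m' : ℕ} (h : Fits q 0 m) (h' : Fits q 0 m') :
    Fits q 0 (m ||| m') := by
  have := h.or h'
  rwa [Nat.or_self] at this

theorem incr_iff (a b c d e : ℕ) :
    incr a b c d e = true ↔ a < b ∧ b < c ∧ c < d ∧ d < e ∧ e < 8 := by
  simp [incr, Nat.blt_eq, and_assoc]

theorem eight {T : Ω → Ω → Ω → Prop} (h : Five T) (p : ℕ → Ω)
    (hp : ∀ i j, i < 8 → j < 8 → p i = p j → i = j) (h1 : T (p 0) (p 1) (p 2))
    (h2 : T (p 0) (p 1) (p 3)) : False := by
  have hq : ∀ j, ok j = true → ∃ am ∈ kids j, Fits (Qp T p) am.1 am.2 := by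
    intro j hj
    rw [ok, incr_iff] at hj
    rw [kids]
    generalize j % 8 = a at *
    generalize j / 8 % 8 = b at *
    generalize j / 64 % 8 = c at *
    generalize j / 512 % 8 = d at *
    generalize j / 4096 % 8 = e at *
    obtain ⟨hab, hbc, hcd, hde, he⟩ := hj
    have ha : a < 8 := by omega
    have hb : b < 8 := by omega
    have hc : c < 8 := by omega
    have hd : d < 8 := by omega
    have hne : ∀ i k, i < k → k < 8 → p i ≠ p k := fun i k hik hk he =>
      absurd (hp i k (hik.trans hk) hk he) (by omega)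
    have hnd : [p a, p b, p c, p d, p e].Nodup := by
      simp only [List.nodup_cons, List.mem_cons, List.not_mem_nil, or_false, not_or,
        List.nodup_nil, and_true, not_false_eq_true]
      refine ⟨⟨hne _ _ ?_ hb, hne _ _ ?_ hc, hne _ _ ?_ hd, hne _ _ ?_ he⟩,
        ⟨hne _ _ ?_ hc, hne _ _ ?_ hd, hne _ _ ?_ he⟩, ⟨hne _ _ ?_ hd, hne _ _ ?_ he⟩,
        hne _ _ ?_ he⟩ <;> omega
    obtain ⟨hB, hC⟩ := h _ _ _ _ _ hnd
    cases Nat.blt j 32768 with
    | true =>
      rcases hB with hB | hB | hB | hB | hB | hB | hB | hB | hB | hB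
      · exact ⟨(bit a b c, 0), by simp [alts], fits_pos ha hb hB⟩
      · exact ⟨(bit a b d, 0), by simp [alts], fits_pos ha hb hB⟩
      · exact ⟨(bit a b e, 0), by simp [alts], fits_pos ha hb hB⟩
      · exact ⟨(bit a c d, 0), by simp [alts], fits_pos ha hc hB⟩
      · exact ⟨(bit a c e, 0), by simp [alts], fits_pos ha hc hB⟩
      · exact ⟨(bit a d e, 0), by simp [alts], fits_pos ha hd hB⟩
      · exact ⟨(bit b c d, 0), by simp [alts], fits_pos hb hc hB⟩
      · exact ⟨(bit b c e, 0), by simp [alts], fits_pos hb hc hB⟩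
      · exact ⟨(bit b d e, 0), by simp [alts], fits_pos hb hd hB⟩
      · exact ⟨(bit c d e, 0), by simp [alts], fits_pos hc hd hB⟩
    | false =>
      rcases hC with hC | hC | hC | hC | hC
      · refine ⟨(0, bit b c d ||| bit b c e ||| bit b d e ||| bit c d e), by simp [alts], ?_⟩
        exact fits_or0 (fits_or0 (fits_or0 (fits_neg hb hc hC.1) (fits_neg hb hc hC.2.1))
          (fits_neg hb hd hC.2.2.1)) (fits_neg hc hd hC.2.2.2)
      · refine ⟨(0, bit a c d ||| bit a c e ||| bit a d e ||| bit c d e), by simp [alts], ?_⟩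
        exact fits_or0 (fits_or0 (fits_or0 (fits_neg ha hc hC.1) (fits_neg ha hc hC.2.1))
          (fits_neg ha hd hC.2.2.1)) (fits_neg hc hd hC.2.2.2)
      · refine ⟨(0, bit a b d ||| bit a b e ||| bit a d e ||| bit b d e), by simp [alts], ?_⟩
        exact fits_or0 (fits_or0 (fits_or0 (fits_neg ha hb hC.1) (fits_neg ha hb hC.2.1))
          (fits_neg ha hd hC.2.2.1)) (fits_neg hb hd hC.2.2.2)
      · refine ⟨(0, bit a b c ||| bit a b e ||| bit a c e ||| bit b c e), by simp [alts], ?_⟩
        exact fits_or0 (fits_or0 (fits_or0 (fits_neg ha hb hC.1) (fits_neg ha hb hC.2.1))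
          (fits_neg ha hc hC.2.2.1)) (fits_neg hb hc hC.2.2.2)
      · refine ⟨(0, bit a b c ||| bit a b d ||| bit a c d ||| bit b c d), by simp [alts], ?_⟩
        exact fits_or0 (fits_or0 (fits_or0 (fits_neg ha hb hC.1) (fits_neg ha hb hC.2.1))
          (fits_neg ha hc hC.2.2.1)) (fits_neg hb hc hC.2.2.2)
  obtain ⟨r, hr⟩ := Option.isSome_iff_exists.mp tree_run
  refine run_sound (Qp T p) hq _ _ _ _ _ ?_ hr
  have := (fits_pos (T := T) (p := p) (by norm_num) (by norm_num) h1).or
    (fits_pos (T := T) (p := p) (by norm_num) (by norm_num) h2)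
  rwa [Nat.or_self] at this

/-- A list without repetitions of length at most `m` can be extended to one of length `m`, if there
are at least `m` points. -/
theorem extend (S : Finset Ω) (m : ℕ) (hm : m ≤ S.card) (l : List Ω) (hl : l.Nodup)
    (hlen : l.length ≤ m) : ∃ l', (l ++ l').Nodup ∧ (l ++ l').length = m := by
  classical
  obtain ⟨k, hk⟩ := Nat.exists_eq_add_of_le hlen
  induction k generalizing l with
  | zero => exact ⟨[], by simpa using hl, by simp; omega⟩
  | succ k ih =>
    obtain ⟨x, hx, hxl⟩ : ∃ x ∈ S, x ∉ l.toFinset := by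
      by_contra hc
      push Not at hc
      have := (Finset.card_le_card hc).trans (List.toFinset_card_le l)
      omega
    have h1 : (l ++ [x]).Nodup := by
      rw [List.nodup_append]
      refine ⟨hl, List.nodup_singleton x, ?_⟩
      intro a ha b hb
      rw [List.mem_singleton] at hb
      subst hb
      rintro rfl
      exact hxl (List.mem_toFinset.mpr ha)
    obtain ⟨l', h2, h3⟩ := ih (l ++ [x]) h1 (by simp; omega) (by simp; omega)
    refine ⟨x :: l', ?_, ?_⟩
    · simpa using h2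
    · simpa using h3

theorem unique {T : Ω → Ω → Ω → Prop} (h : Five T) (nd : ∀ a b c, T a b c → [a, b, c].Nodup)
    (S : Finset Ω) (hS : 8 ≤ S.card) {a b c d : Ω} (h1 : T a b c) (h2 : T a b d) : c = d := by
  by_contra hcd
  have n1 := nd _ _ _ h1
  have n2 := nd _ _ _ h2
  have hn : [a, b, c, d].Nodup := by
    simp only [List.nodup_cons, List.mem_cons, List.not_mem_nil, or_false, not_or,
      List.nodup_nil, and_true, not_false_eq_true] at n1 n2 ⊢
    exact ⟨⟨n1.1.1, n1.1.2, n2.1.2⟩, ⟨n1.2, n2.2⟩, hcd⟩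
  obtain ⟨l', h3, h4⟩ := extend S 8 hS _ hn (by simp)
  set l := [a, b, c, d] ++ l' with hl
  refine eight h (fun i => l.getD i a) ?_ ?_ ?_
  · intro i j hi hj hij
    have hi' : i < l.length := by omega
    have hj' : j < l.length := by omega
    simp only [List.getD_eq_getElem _ _ hi', List.getD_eq_getElem _ _ hj'] at hij
    exact (List.Nodup.getElem_inj_iff h3).mp hij
  · simpa [hl] using h1
  · simpa [hl] using h2

theorem ten [Fintype Ω] (hc : Fintype.card Ω = 10) {T : Ω → Ω → Ω → Prop} (h : Five T)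
    (nd : ∀ a b c, T a b c → [a, b, c].Nodup) (s2 : ∀ a b c, T a b c → T a c b) :
    False := by
  classical
  have uniq : ∀ {a b c d : Ω}, T a b c → T a b d → c = d := fun h1 h2 =>
    unique h nd Finset.univ (by rw [Finset.card_univ, hc]; norm_num) h1 h2
  have hcard : ∀ l : List Ω, l.length ≤ 9 → ∃ x, x ∉ l := by
    intro l hl
    by_contra hcon
    push Not at hcon
    have h1 : (Finset.univ : Finset Ω) ⊆ l.toFinset := fun x _ => List.mem_toFinset.mpr (hcon x)
    have h2 := (Finset.card_le_card h1).trans (List.toFinset_card_le l)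
    rw [Finset.card_univ, hc] at h2
    omega
  have third : ∀ a b : Ω, a ≠ b → ∃ c, T a b c := by
    intro a b hab
    by_contra hno
    push Not at hno
    let f : Ω → Ω → Ω := fun x y => if hx : ∃ z, T x y z then hx.choose else a
    have hf : ∀ x y z, T x y z → z = f x y := by
      intro x y z hz
      have hx : ∃ z, T x y z := ⟨z, hz⟩
      simp only [f, dif_pos hx]
      exact uniq hz hx.choose_spec
    obtain ⟨z, hz⟩ := hcard [a, b] (by simp)
    obtain ⟨w, hw⟩ := hcard [a, b, z, f a z, f b z] (by simp)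
    obtain ⟨v, hv⟩ := hcard [a, b, z, w, f a z, f a w, f b z, f b w, f z w] (by simp)
    simp only [List.mem_cons, List.not_mem_nil, or_false, not_or] at hz hw hv
    have hnd : [a, b, z, w, v].Nodup := by
      simp only [List.nodup_cons, List.mem_cons, List.not_mem_nil, or_false, not_or,
        List.nodup_nil, and_true, not_false_eq_true]
      exact ⟨⟨hab, Ne.symm hz.1, Ne.symm hw.1, Ne.symm hv.1⟩,
        ⟨Ne.symm hz.2, Ne.symm hw.2.1, Ne.symm hv.2.1⟩, ⟨Ne.symm hw.2.2.1, Ne.symm hv.2.2.1⟩,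
        Ne.symm hv.2.2.2.1⟩
    rcases (h _ _ _ _ _ hnd).1 with hB | hB | hB | hB | hB | hB | hB | hB | hB | hB
    · exact hno _ hB
    · exact hno _ hB
    · exact hno _ hB
    · exact hw.2.2.2.1 (hf _ _ _ hB)
    · exact hv.2.2.2.2.1 (hf _ _ _ hB)
    · exact hv.2.2.2.2.2.1 (hf _ _ _ hB)
    · exact hw.2.2.2.2 (hf _ _ _ hB)
    · exact hv.2.2.2.2.2.2.1 (hf _ _ _ hB)
    · exact hv.2.2.2.2.2.2.2.1 (hf _ _ _ hB)
    · exact hv.2.2.2.2.2.2.2.2 (hf _ _ _ hB)
  obtain ⟨x, -⟩ := hcard [] (by simp)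
  choose g hg using third
  have key : ∑ y ∈ Finset.univ.erase x, (1 : ZMod 2) = 0 := by
    refine Finset.sum_involution (fun y hy => g x y (Finset.ne_of_mem_erase hy).symm) ?_ ?_ ?_ ?_
    · intro y hy
      decide
    · intro y hy _ heq
      have := nd _ _ _ (hg x y (Finset.ne_of_mem_erase hy).symm)
      rw [heq] at this
      simp at this
    · intro y hy
      have := nd _ _ _ (hg x y (Finset.ne_of_mem_erase hy).symm)
      simp only [List.nodup_cons, List.mem_cons, List.not_mem_nil, or_false, not_or] at this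
      exact Finset.mem_erase.mpr ⟨Ne.symm this.1.2, Finset.mem_univ _⟩
    · intro y hy
      have h1 := hg x y (Finset.ne_of_mem_erase hy).symm
      exact uniq (hg x _ _) (s2 _ _ _ h1)
  rw [Finset.sum_const, Finset.card_erase_of_mem (Finset.mem_univ x), Finset.card_univ, hc] at key
  exact absurd key (by decide)

end Pool.Agent.Run7.h645.KH
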