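import Pool.Agent.Run7.h645.KH.Five

/-!
# Groups which map the `m`-sets into the `(m + 1)`-sets
-/

set_option autoImplicit false

namespace Pool.Agent.Run7.h645.KH

universe u

variable {Ω : Type u}

/-- The permutation group `G` is `(m, m + 1)`-homogeneous: for all sets `A`, `B` of points with
`|A| = m` and `|B| = m + 1`, some element of `G` maps `A` into `B`. -/
def Homog (G : Subgroup (Equiv.Perm Ω)) (m : ℕ) : Prop :=
  ∀ A B : Finset Ω, A.card = m → B.card = m + 1 → ∃ g ∈ G, ∀ a ∈ A, g a ∈ B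

/-- Every set of `m + 2` points contains an `m`-set in `F`, and an `(m + 1)`-set without `m`-subsets in `F`. -/
def Mixed (F : Finset Ω → Prop) (m : ℕ) : Prop :=
  ∀ K : Finset Ω, K.card = m + 2 → (∃ t ⊆ K, t.card = m ∧ F t) ∧
    ∃ B ⊆ K, B.card = m + 1 ∧ ∀ t ⊆ B, t.card = m → ¬ F t

theorem reduce {G : Subgroup (Equiv.Perm Ω)} {m : ℕ} (h : Homog G (m + 1)) (hn : ¬ Homog G m) :
    ∃ F : Finset Ω → Prop, Mixed F m := by
  classical
  rw [Homog] at hn
  push Not at hn
  obtain ⟨A, B, hA, hB, hAB⟩ := hn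
  obtain ⟨x, hxB, hxA⟩ : ∃ x ∈ B, x ∉ A := by
    by_contra hc
    push Not at hc
    have := Finset.card_le_card hc
    omega
  refine ⟨fun t => ∃ g ∈ G, ∀ a ∈ A, g a ∈ t, ?_⟩
  intro K hK
  constructor
  · obtain ⟨g, hg, hgA⟩ := h (insert x A) K (by rw [Finset.card_insert_of_notMem hxA, hA]) hK
    refine ⟨A.image g, ?_, ?_, g, hg, fun a ha => Finset.mem_image_of_mem _ ha⟩
    · intro y hy
      obtain ⟨a, ha, rfl⟩ := Finset.mem_image.mp hy
      exact hgA a (Finset.mem_insert_of_mem ha)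
    · rw [Finset.card_image_of_injective _ g.injective, hA]
  · obtain ⟨g, hg, hgB⟩ := h B K hB hK
    refine ⟨B.image g, ?_, ?_, ?_⟩
    · intro y hy
      obtain ⟨a, ha, rfl⟩ := Finset.mem_image.mp hy
      exact hgB a ha
    · rw [Finset.card_image_of_injective _ g.injective, hB]
    · rintro t ht - ⟨f, hf, hfA⟩
      obtain ⟨a, ha, hna⟩ := hAB (g⁻¹ * f) (G.mul_mem (G.inv_mem hg) hf)
      obtain ⟨b, hb, hbe⟩ := Finset.mem_image.mp (ht (hfA a ha))
      apply hna
      have h1 : (g⁻¹ * f) a = b := by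
        rw [Equiv.Perm.mul_apply, ← hbe]
        exact g.symm_apply_apply b
      rw [h1]
      exact hb

theorem Mixed.comap {F : Finset Ω → Prop} {m : ℕ} (h : Mixed F m) {α : Type} (e : α ↪ Ω) :
    Mixed (fun t : Finset α => F (t.map e)) m := by
  intro K hK
  obtain ⟨⟨t, ht, htc, hF⟩, ⟨B, hB, hBc, hBF⟩⟩ := h (K.map e) (by rw [Finset.card_map, hK])
  obtain ⟨t', ht', rfl⟩ := Finset.subset_map_iff.mp ht
  obtain ⟨B', hB', rfl⟩ := Finset.subset_map_iff.mp hB
  refine ⟨⟨t', ht', by rwa [Finset.card_map] at htc, hF⟩, B', hB', by rwa [Finset.card_map] at hBc, ?_⟩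
  intro s hs hsc
  exact hBF _ (Finset.map_subset_map.mpr hs) (by rw [Finset.card_map, hsc])

theorem exists_emb {N : ℕ} (h : ∃ S : Finset Ω, N ≤ S.card) : Nonempty (Fin N ↪ Ω) := by
  obtain ⟨S, hS⟩ := h
  obtain ⟨e⟩ := Function.Embedding.nonempty_of_card_le (α := Fin N) (β := S) (by simpa using hS)
  exact ⟨e.trans (Function.Embedding.subtype _)⟩

/-- the subsets with all but one element -/
theorem eq_erase [DecidableEq Ω] {K B : Finset Ω} {m : ℕ} (hK : K.card = m + 1) (hBK : B ⊆ K)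
    (hB : B.card = m) : ∃ x ∈ K, B = K.erase x := by
  have h1 : (K \ B).card = 1 := by
    rw [Finset.card_sdiff_of_subset hBK]
    omega
  obtain ⟨x, hx⟩ := Finset.card_eq_one.mp h1
  have hxm : x ∈ K \ B := by rw [hx]; exact Finset.mem_singleton_self x
  refine ⟨x, (Finset.mem_sdiff.mp hxm).1, ?_⟩
  ext y
  constructor
  · intro hy
    refine Finset.mem_erase.mpr ⟨?_, hBK hy⟩
    rintro rfl
    exact (Finset.mem_sdiff.mp hxm).2 hy
  · intro hy
    obtain ⟨h2, h3⟩ := Finset.mem_erase.mp hy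
    by_contra hc
    have : y ∈ K \ B := Finset.mem_sdiff.mpr ⟨h3, hc⟩
    rw [hx, Finset.mem_singleton] at this
    exact h2 this

theorem nodup3 {x y z : Ω} (h1 : x ≠ y) (h2 : x ≠ z) (h3 : y ≠ z) : [x, y, z].Nodup := by
  simp [h1, h2, h3]

theorem card3 [DecidableEq Ω] {x y z : Ω} (h1 : x ≠ y) (h2 : x ≠ z) (h3 : y ≠ z) :
    ({x, y, z} : Finset Ω).card = 3 := by
  have := List.toFinset_card_of_nodup (nodup3 h1 h2 h3)
  simpa using this

theorem five_of_mixed [DecidableEq Ω] {F : Finset Ω → Prop} (h : Mixed F 3) :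
    Five (fun a b c => [a, b, c].Nodup ∧ F {a, b, c}) := by
  intro a b c d e hnd
  have hK : ({a, b, c, d, e} : Finset Ω).card = 5 := by
    have := List.toFinset_card_of_nodup hnd
    simpa using this
  obtain ⟨⟨t, ht, htc, hF⟩, ⟨B, hB, hBc, hBF⟩⟩ := h {a, b, c, d, e} hK
  simp only [List.nodup_cons, List.mem_cons, List.not_mem_nil, or_false, not_or,
    List.nodup_nil, and_true, not_false_eq_true] at hnd
  obtain ⟨⟨hab, hac, had, hae⟩, ⟨hbc, hbd, hbe⟩, ⟨hcd, hce⟩, hde⟩ := hnd
  simp only [nodup3 hab hac hbc,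
    nodup3 hab had hbd,
    nodup3 hab hae hbe,
    nodup3 hac had hcd,
    nodup3 hac hae hce,
    nodup3 had hae hde,
    nodup3 hbc hbd hcd,
    nodup3 hbc hbe hce,
    nodup3 hbd hbe hde,
    nodup3 hcd hce hde, true_and]
  constructor
  · obtain ⟨C, htC, hCK, hC⟩ := Finset.exists_subsuperset_card_eq ht (by omega : t.card ≤ 4)
      (by omega)
    obtain ⟨x, hx, rfl⟩ := eq_erase (m := 4) hK hCK hC
    obtain ⟨y, hy, rfl⟩ := eq_erase (m := 3) hC htC htc
    simp only [Finset.mem_insert, Finset.mem_singleton] at hx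
    simp only [Finset.mem_erase, Finset.mem_insert, Finset.mem_singleton] at hy
    obtain ⟨hyx, hy⟩ := hy
    have q : ∀ u v : Ω, x = u → y = v → F ((({a, b, c, d, e} : Finset Ω).erase u).erase v) := by
      intro u v h1 h2
      rw [← h1, ← h2]
      exact hF
    rcases hx with hx | hx | hx | hx | hx <;> rcases hy with hy | hy | hy | hy | hy <;>
      first
      | exact absurd (hy.trans hx.symm) hyx
      | (have hF' := q _ _ hx hy
         simp [Finset.erase_insert_of_ne, hab, hac, had, hae, hbc, hbd, hbe, hcd, hce, hde] at hF'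
         simp only [hF', true_or, or_true])
  · obtain ⟨x, hx, rfl⟩ := eq_erase (m := 4) hK hB hBc
    have key : ∀ u v w : Ω, u ≠ v → u ≠ w → v ≠ w → x ≠ u → x ≠ v → x ≠ w →
        u ∈ ({a, b, c, d, e} : Finset Ω) → v ∈ ({a, b, c, d, e} : Finset Ω) →
        w ∈ ({a, b, c, d, e} : Finset Ω) → ¬ F {u, v, w} := by
      intro u v w h1 h2 h3 h4 h5 h6 h7 h8 h9
      refine hBF _ ?_ (card3 h1 h2 h3)
      intro z hz
      simp only [Finset.mem_insert, Finset.mem_singleton] at hz
      rcases hz with rfl | rfl | rfl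
      · exact Finset.mem_erase.mpr ⟨h4.symm, h7⟩
      · exact Finset.mem_erase.mpr ⟨h5.symm, h8⟩
      · exact Finset.mem_erase.mpr ⟨h6.symm, h9⟩
    have ma : a ∈ ({a, b, c, d, e} : Finset Ω) := by simp
    have mb : b ∈ ({a, b, c, d, e} : Finset Ω) := by simp
    have mc : c ∈ ({a, b, c, d, e} : Finset Ω) := by simp
    have md : d ∈ ({a, b, c, d, e} : Finset Ω) := by simp
    have me : e ∈ ({a, b, c, d, e} : Finset Ω) := by simp
    simp only [Finset.mem_insert, Finset.mem_singleton] at hx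
    rcases hx with hx | hx | hx | hx | hx <;> rw [hx] at key
    · exact Or.inl ⟨key b c d hbc hbd hcd hab hac had mb mc md,
          key b c e hbc hbe hce hab hac hae mb mc me,
          key b d e hbd hbe hde hab had hae mb md me,
          key c d e hcd hce hde hac had hae mc md me⟩
    · exact Or.inr (Or.inl ⟨key a c d hac had hcd (Ne.symm hab) hbc hbd ma mc md,
          key a c e hac hae hce (Ne.symm hab) hbc hbe ma mc me,
          key a d e had hae hde (Ne.symm hab) hbd hbe ma md me,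
          key c d e hcd hce hde hbc hbd hbe mc md me⟩)
    · exact Or.inr (Or.inr (Or.inl ⟨key a b d hab had hbd (Ne.symm hac) (Ne.symm hbc) hcd ma mb md,
          key a b e hab hae hbe (Ne.symm hac) (Ne.symm hbc) hce ma mb me,
          key a d e had hae hde (Ne.symm hac) hcd hce ma md me,
          key b d e hbd hbe hde (Ne.symm hbc) hcd hce mb md me⟩))
    · exact Or.inr (Or.inr (Or.inr (Or.inl ⟨key a b c hab hac hbc (Ne.symm had) (Ne.symm hbd) (Ne.symm hcd) ma mb mc,
          key a b e hab hae hbe (Ne.symm had) (Ne.symm hbd) hde ma mb me,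
          key a c e hac hae hce (Ne.symm had) (Ne.symm hcd) hde ma mc me,
          key b c e hbc hbe hce (Ne.symm hbd) (Ne.symm hcd) hde mb mc me⟩)))
    · exact Or.inr (Or.inr (Or.inr (Or.inr (⟨key a b c hab hac hbc (Ne.symm hae) (Ne.symm hbe) (Ne.symm hce) ma mb mc,
          key a b d hab had hbd (Ne.symm hae) (Ne.symm hbe) (Ne.symm hde) ma mb md,
          key a c d hac had hcd (Ne.symm hae) (Ne.symm hce) (Ne.symm hde) ma mc md,
          key b c d hbc hbd hcd (Ne.symm hbe) (Ne.symm hce) (Ne.symm hde) mb mc md⟩))))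

theorem five [DecidableEq Ω] {F : Finset Ω → Prop} (h : Mixed F 3) (hS : ∃ S : Finset Ω, 10 ≤ S.card) :
    False := by
  obtain ⟨e⟩ := exists_emb hS
  have h1 := five_of_mixed (h.comap e)
  refine ten (by simp) h1 (fun a b c h => h.1) ?_
  intro a b c hT
  refine ⟨?_, ?_⟩
  · have := hT.1
    simp only [List.nodup_cons, List.mem_cons, List.not_mem_nil, or_false, not_or,
      List.nodup_nil, and_true, not_false_eq_true] at this ⊢
    exact ⟨⟨this.1.2, this.1.1⟩, Ne.symm this.2⟩
  · have h2 : ({a, c, b} : Finset (Fin 10)) = {a, b, c} := by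
      ext z
      simp only [Finset.mem_insert, Finset.mem_singleton]
      tauto
    rw [h2]
    exact hT.2

end Pool.Agent.Run7.h645.KH
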