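import Pool.Agent.Run7.h645.KH.Group

/-!
# The cases of pairs and points, and the Ramsey bound
-/

set_option autoImplicit false

namespace Pool.Agent.Run7.h645.KH

universe u

variable {Ω : Type u}

/-- the condition on the six pairs of four points -/
def four (ab ac ad bc bd cd : Bool) : Bool :=
  (ab || ac || ad || bc || bd || cd) &&
    ((!bc && !bd && !cd) || (!ac && !ad && !cd) || (!ab && !ad && !bd) || (!ab && !ac && !bc))

theorem four_false : ∀ ab ac ad ae bc bd be cd ce de : Bool,
    (four ab ac ad bc bd cd && four ab ac ae bc be ce && four ab ad ae bd be de &&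
      four ac ad ae cd ce de && four bc bd be cd ce de) = false := by
  decide +kernel

theorem four_of_mixed [DecidableEq Ω] {F : Finset Ω → Prop} (h : Mixed F 2) {a b c d : Ω}
    (hab : a ≠ b) (hac : a ≠ c) (had : a ≠ d) (hbc : b ≠ c) (hbd : b ≠ d) (hcd : c ≠ d) :
    (F {a, b} ∨ F {a, c} ∨ F {a, d} ∨ F {b, c} ∨ F {b, d} ∨ F {c, d}) ∧
    ((¬ F {b, c} ∧ ¬ F {b, d} ∧ ¬ F {c, d}) ∨ (¬ F {a, c} ∧ ¬ F {a, d} ∧ ¬ F {c, d}) ∨
      (¬ F {a, b} ∧ ¬ F {a, d} ∧ ¬ F {b, d}) ∨ (¬ F {a, b} ∧ ¬ F {a, c} ∧ ¬ F {b, c})) := by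
  have hnd : [a, b, c, d].Nodup := by simp [hab, hac, had, hbc, hbd, hcd]
  have hK : ({a, b, c, d} : Finset Ω).card = 4 := by
    have := List.toFinset_card_of_nodup hnd
    simpa using this
  obtain ⟨⟨t, ht, htc, hF⟩, ⟨B, hB, hBc, hBF⟩⟩ := h {a, b, c, d} hK
  constructor
  · obtain ⟨C, htC, hCK, hC⟩ := Finset.exists_subsuperset_card_eq ht (by omega : t.card ≤ 3)
      (by omega)
    obtain ⟨x, hx, rfl⟩ := eq_erase (m := 3) hK hCK hC
    obtain ⟨y, hy, rfl⟩ := eq_erase (m := 2) hC htC htc
    simp only [Finset.mem_insert, Finset.mem_singleton] at hx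
    simp only [Finset.mem_erase, Finset.mem_insert, Finset.mem_singleton] at hy
    obtain ⟨hyx, hy⟩ := hy
    have q : ∀ u v : Ω, x = u → y = v → F ((({a, b, c, d} : Finset Ω).erase u).erase v) := by
      intro u v h1 h2
      rw [← h1, ← h2]
      exact hF
    rcases hx with hx | hx | hx | hx <;> rcases hy with hy | hy | hy | hy <;>
      first
      | exact absurd (hy.trans hx.symm) hyx
      | (have hF' := q _ _ hx hy
         simp [Finset.erase_insert_of_ne, hab, hac, had, hbc, hbd, hcd] at hF'
         simp only [hF', true_or, or_true])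
  · obtain ⟨x, hx, rfl⟩ := eq_erase (m := 3) hK hB hBc
    have key : ∀ u v : Ω, u ≠ v → x ≠ u → x ≠ v →
        u ∈ ({a, b, c, d} : Finset Ω) → v ∈ ({a, b, c, d} : Finset Ω) → ¬ F {u, v} := by
      intro u v h1 h4 h5 h7 h8
      refine hBF _ ?_ (Finset.card_pair h1)
      intro z hz
      simp only [Finset.mem_insert, Finset.mem_singleton] at hz
      rcases hz with rfl | rfl
      · exact Finset.mem_erase.mpr ⟨h4.symm, h7⟩
      · exact Finset.mem_erase.mpr ⟨h5.symm, h8⟩
    have ma : a ∈ ({a, b, c, d} : Finset Ω) := by simp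
    have mb : b ∈ ({a, b, c, d} : Finset Ω) := by simp
    have mc : c ∈ ({a, b, c, d} : Finset Ω) := by simp
    have md : d ∈ ({a, b, c, d} : Finset Ω) := by simp
    simp only [Finset.mem_insert, Finset.mem_singleton] at hx
    rcases hx with hx | hx | hx | hx <;> rw [hx] at key
    · exact Or.inl ⟨key b c hbc hab hac mb mc, key b d hbd hab had mb md, key c d hcd hac had mc md⟩
    · exact Or.inr (Or.inl ⟨key a c hac (Ne.symm hab) hbc ma mc,
        key a d had (Ne.symm hab) hbd ma md, key c d hcd hbc hbd mc md⟩)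
    · exact Or.inr (Or.inr (Or.inl ⟨key a b hab (Ne.symm hac) (Ne.symm hbc) ma mb,
        key a d had (Ne.symm hac) hcd ma md, key b d hbd (Ne.symm hbc) hcd mb md⟩))
    · exact Or.inr (Or.inr (Or.inr ⟨key a b hab (Ne.symm had) (Ne.symm hbd) ma mb,
        key a c hac (Ne.symm had) (Ne.symm hcd) ma mc, key b c hbc (Ne.symm hbd) (Ne.symm hcd) mb mc⟩))

theorem no_four {F : Finset Ω → Prop} (h : Mixed F 2) (hS : ∃ S : Finset Ω, 5 ≤ S.card) :
    False := by
  classical
  obtain ⟨e⟩ := exists_emb hS
  have h1 := h.comap e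
  have key : ∀ a b c d : Fin 5, a < b → b < c → c < d →
      four (decide (F (Finset.map e {a, b}))) (decide (F (Finset.map e {a, c})))
        (decide (F (Finset.map e {a, d}))) (decide (F (Finset.map e {b, c})))
        (decide (F (Finset.map e {b, d}))) (decide (F (Finset.map e {c, d}))) = true := by
    intro a b c d hab hbc hcd
    have := four_of_mixed h1 hab.ne (hab.trans hbc).ne (hab.trans (hbc.trans hcd)).ne hbc.ne
      (hbc.trans hcd).ne hcd.ne
    simpa [four, or_assoc, and_assoc] using this
  have := four_false (decide (F (Finset.map e {0, 1}))) (decide (F (Finset.map e {0, 2})))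
    (decide (F (Finset.map e {0, 3}))) (decide (F (Finset.map e {0, 4})))
    (decide (F (Finset.map e {1, 2}))) (decide (F (Finset.map e {1, 3})))
    (decide (F (Finset.map e {1, 4}))) (decide (F (Finset.map e {2, 3})))
    (decide (F (Finset.map e {2, 4}))) (decide (F (Finset.map e {3, 4})))
  rw [key 0 1 2 3 (by decide) (by decide) (by decide), key 0 1 2 4 (by decide) (by decide) (by decide),
    key 0 1 3 4 (by decide) (by decide) (by decide), key 0 2 3 4 (by decide) (by decide) (by decide),
    key 1 2 3 4 (by decide) (by decide) (by decide)] at this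
  exact absurd this (by decide)

/-- the condition on three points -/
def three (a b c : Bool) : Bool :=
  (a || b || c) && ((!b && !c) || (!a && !c) || (!a && !b))

theorem three_false : ∀ a b c d : Bool,
    (three a b c && three a b d && three a c d && three b c d) = false := by
  decide +kernel

theorem no_three {F : Finset Ω → Prop} (h : Mixed F 1) (hS : ∃ S : Finset Ω, 4 ≤ S.card) :
    False := by
  classical
  obtain ⟨e⟩ := exists_emb hS
  have h1 := h.comap e
  have key : ∀ a b c : Fin 4, a ≠ b → a ≠ c → b ≠ c →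
      (F (Finset.map e {a}) ∨ F (Finset.map e {b}) ∨ F (Finset.map e {c})) ∧
      ((¬ F (Finset.map e {b}) ∧ ¬ F (Finset.map e {c})) ∨
        (¬ F (Finset.map e {a}) ∧ ¬ F (Finset.map e {c})) ∨
        (¬ F (Finset.map e {a}) ∧ ¬ F (Finset.map e {b}))) := by
    intro a b c hab hac hbc
    obtain ⟨⟨t, ht, htc, hF⟩, ⟨B, hB, hBc, hBF⟩⟩ := h1 {a, b, c} (card3 hab hac hbc)
    constructor
    · obtain ⟨x, rfl⟩ := Finset.card_eq_one.mp htc
      have hx := ht (Finset.mem_singleton_self x)
      simp only [Finset.mem_insert, Finset.mem_singleton] at hx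
      rcases hx with rfl | rfl | rfl
      · exact Or.inl hF
      · exact Or.inr (Or.inl hF)
      · exact Or.inr (Or.inr hF)
    · obtain ⟨x, hx, rfl⟩ := eq_erase (m := 2) (card3 hab hac hbc) hB hBc
      have key : ∀ u : Fin 4, x ≠ u → u ∈ ({a, b, c} : Finset (Fin 4)) → ¬ F (Finset.map e {u}) := by
        intro u h1 h2
        refine hBF {u} ?_ (Finset.card_singleton u)
        intro z hz
        rw [Finset.mem_singleton] at hz
        rw [hz]
        exact Finset.mem_erase.mpr ⟨h1.symm, h2⟩
      have ma : a ∈ ({a, b, c} : Finset (Fin 4)) := by simp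
      have mb : b ∈ ({a, b, c} : Finset (Fin 4)) := by simp
      have mc : c ∈ ({a, b, c} : Finset (Fin 4)) := by simp
      simp only [Finset.mem_insert, Finset.mem_singleton] at hx
      rcases hx with hx | hx | hx <;> rw [hx] at key
      · exact Or.inl ⟨key b hab mb, key c hac mc⟩
      · exact Or.inr (Or.inl ⟨key a (Ne.symm hab) ma, key c hbc mc⟩)
      · exact Or.inr (Or.inr ⟨key a (Ne.symm hac) ma, key b (Ne.symm hbc) mb⟩)
  have key' : ∀ a b c : Fin 4, a ≠ b → a ≠ c → b ≠ c →
      three (decide (F (Finset.map e {a}))) (decide (F (Finset.map e {b})))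
        (decide (F (Finset.map e {c}))) = true := by
    intro a b c hab hac hbc
    simpa [three, or_assoc] using key a b c hab hac hbc
  have := three_false (decide (F (Finset.map e {0}))) (decide (F (Finset.map e {1})))
    (decide (F (Finset.map e {2}))) (decide (F (Finset.map e {3})))
  rw [key' 0 1 2 (by decide) (by decide) (by decide), key' 0 1 3 (by decide) (by decide) (by decide),
    key' 0 2 3 (by decide) (by decide) (by decide), key' 1 2 3 (by decide) (by decide) (by decide)] at this
  exact absurd this (by decide)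

/-- The Ramsey property: for every colouring of the `(k - 2)`-subsets of an `N`-set with red and blue there are
`k - 1` points all of whose `(k - 2)`-subsets are red, or `k` points all of whose `(k - 2)`-subsets are blue. -/
def Arrow (N k : ℕ) : Prop :=
  ∀ red : Finset (Fin N) → Prop,
    (∃ B : Finset (Fin N), B.card = k - 1 ∧ ∀ t ⊆ B, t.card = k - 2 → red t) ∨
      ∃ K : Finset (Fin N), K.card = k ∧ ∀ t ⊆ K, t.card = k - 2 → ¬ red t

theorem no_ramsey {F : Finset Ω → Prop} {N m : ℕ} (h : Mixed F (m + 1)) (hN : Arrow N (m + 3))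
    (hS : ∃ S : Finset Ω, N ≤ S.card) : False := by
  classical
  obtain ⟨e⟩ := exists_emb hS
  have h1 := h.comap e
  have hNm : m + 3 ≤ N := by
    rcases hN (fun _ => False) with ⟨B, hB, hBt⟩ | ⟨K, hK, -⟩
    · obtain ⟨t, ht, htc⟩ := Finset.exists_subset_card_eq (s := B) (n := m + 1) (by omega)
      exact (hBt t ht htc).elim
    · have := K.card_le_univ
      rw [Fintype.card_fin] at this
      omega
  rcases hN (fun t => F (t.map e)) with ⟨B, hB, hBt⟩ | ⟨K, hK, hKt⟩
  · obtain ⟨x, hx⟩ : ∃ x, x ∉ B := by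
      by_contra hc
      push Not at hc
      have h2 := Finset.card_le_card (fun x _ => hc x : Finset.univ ⊆ B)
      rw [Finset.card_univ, Fintype.card_fin] at h2
      omega
    obtain ⟨-, C, hC, hCc, hCF⟩ := h1 (insert x B) (by rw [Finset.card_insert_of_notMem hx]; omega)
    have h3 : m + 1 ≤ (C ∩ B).card := by
      have h4 : C ⊆ insert x (C ∩ B) := by
        intro z hz
        rcases Finset.mem_insert.mp (hC hz) with h5 | h5
        · exact Finset.mem_insert.mpr (Or.inl h5)
        · exact Finset.mem_insert_of_mem (Finset.mem_inter.mpr ⟨hz, h5⟩)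
      have h6 := (Finset.card_le_card h4).trans (Finset.card_insert_le x (C ∩ B))
      omega
    obtain ⟨t, ht, htc⟩ := Finset.exists_subset_card_eq h3
    exact hCF t (ht.trans Finset.inter_subset_left) htc
      (hBt t (ht.trans Finset.inter_subset_right) htc)
  · obtain ⟨⟨t, ht, htc, hF⟩, -⟩ := h1 K hK
    exact hKt t ht htc hF

end Pool.Agent.Run7.h645.KH
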